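import Mathlib
import Pool.Agent.MP_038f7f_co.h79.Gen

set_option autoImplicit false

namespace Pool.Agent.Results.MP_038f7f_co.FoldDichotomy

/-- the shadow graph: two vertices are adjacent when an edge of `F` contains both -/
def shadow {m : ℕ} (F : Finset (Finset (Fin m))) : SimpleGraph (Fin m) :=
  SimpleGraph.fromRel (fun x y => ∃ f ∈ F, x ∈ f ∧ y ∈ f)

/-- `e` meets every other edge in at most one vertex -/
def Loose {m : ℕ} (F : Finset (Finset (Fin m))) (e : Finset (Fin m)) : Prop :=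
  ∀ f ∈ F, f ≠ e → (e ∩ f).card ≤ 1

/-- no single vertex separates `f` from `e` in the shadow graph with `I` removed -/
def Tied {m : ℕ} (F : Finset (Finset (Fin m))) (I : Set (Fin m)) (e f : Finset (Fin m)) : Prop :=
  ∀ v : Fin m, ∃ x y : {z : Fin m | z ∉ I ∧ z ≠ v}, x.1 ∈ e ∧ y.1 ∈ f ∧
    ((shadow F).induce {z | z ∉ I ∧ z ≠ v}).Reachable x y

/-- the edges tied to `e` fold into `F - e` -/
def Folds {m : ℕ} (F : Finset (Finset (Fin m))) (I : Set (Fin m)) (e : Finset (Fin m)) : Prop :=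
  ∃ ψ : Fin m → Fin m, (∀ f ∈ F, Tied F I e f → f.image ψ ∈ F.erase e) ∧
    (∀ x y, ψ x = ψ y → ψ x ∉ e → x = y) ∧ ∀ x ∈ I, ψ x ∈ e

/-- the shadow graph stays connected after deleting an independent set and one more vertex -/
def Robust {m : ℕ} (F : Finset (Finset (Fin m))) : Prop :=
  ∀ I : Set (Fin m), (shadow F).IsIndepSet I → ∀ v : Fin m,
    ((shadow F).induce {z | z ∉ I ∧ z ≠ v}).Preconnected

/-- a vertex outside `e` with a neighbour in `e` has a second neighbour in `e` -/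
def NoPrivate {m : ℕ} (F : Finset (Finset (Fin m))) (e : Finset (Fin m)) : Prop :=
  ∀ a ∈ e, ∀ u ∉ e, (shadow F).Adj a u → ∃ b ∈ e, b ≠ a ∧ (shadow F).Adj b u

/-- `G` is an `F`-saturated `r`-graph -/
def Saturated (r : ℕ) {m n : ℕ} (F : Finset (Finset (Fin m))) (G : Finset (Finset (Fin n))) :
    Prop :=
  (∀ s ∈ G, s.card = r) ∧ (¬ ∃ φ : Fin m ↪ Fin n, ∀ f ∈ F, f.map φ ∈ G) ∧
    ∀ s : Finset (Fin n), s.card = r → s ∉ G → ∃ φ : Fin m ↪ Fin n, ∀ f ∈ F, f.map φ ∈ insert s G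

theorem main (r m : ℕ) (hr : 3 ≤ r) (F : Finset (Finset (Fin m))) (hF : ∀ f ∈ F, f.card = r)
    (hclass : (∀ e ∈ F, ¬ Loose F e) ∨
      ∃ e ∈ F, Loose F e ∧ ∀ I : Set (Fin m), (shadow F).IsIndepSet I → ¬ Folds F I e) :
    (∀ n : ℕ, 2 * r ≤ n → ∀ G : Finset (Finset (Fin n)), Saturated r F G →
      n ^ 2 ≤ 4 * r ^ 4 * G.card) ∨
    (∃ C K : ℕ, ∀ n : ℕ, ∃ G : Finset (Finset (Fin n)), Saturated r F G ∧
      G.card ≤ C * (Nat.log 2 n + 1) ^ K * n ^ (r - 2)) := by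
  rcases hclass with h | ⟨e, he, hl, h⟩
  · refine Or.inl (fun n hn G hG => Pool.Agent.MP_038f7f_co.H80.lower (by omega) F
      (fun e he => ?_) G hG.1 hG.2.1 hG.2.2 hn)
    by_contra hc
    exact h e he (fun f hf hfe => by
      by_contra h'
      exact hc ⟨f, hf, hfe, by omega⟩)
  · obtain ⟨C, K, hCK⟩ := Pool.Agent.MP_038f7f_co.H80.upper hF he hr hl (by
      rintro I hI ⟨ψ, h1, h2, h3⟩
      refine h I (fun x hx y hy hxy hadj => ?_) ⟨ψ, fun f hf ht => h1 f hf (fun v χ hχ => ?_),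
        h2, h3⟩
      · rcases ((SimpleGraph.fromRel_adj _ _ _).mp hadj).2 with ⟨f, hf, a, b⟩ | ⟨f, hf, a, b⟩
        · exact hxy (hI f hf x a y b hx hy)
        · exact hxy (hI f hf x b y a hx hy)
      · obtain ⟨x, y, hx, hy, ⟨w⟩⟩ := ht v
        refine ⟨x, hx, y, hy, x.2.1, y.2.1, x.2.2, y.2.2, ?_⟩
        clear hx hy
        induction w with
        | nil => rfl
        | @cons a b c hab _ ih =>
          refine Eq.trans ?_ ih
          have hab' : (shadow F).Adj a.1 b.1 := hab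
          rcases ((SimpleGraph.fromRel_adj _ _ _).mp hab').2 with ⟨f, hf, p, q⟩ | ⟨f, hf, p, q⟩
          · exact hχ f hf a p b q a.2.1 b.2.1 a.2.2 b.2.2
          · exact hχ f hf a q b p a.2.1 b.2.1 a.2.2 b.2.2)
    refine Or.inr ⟨C, K, fun n => ?_⟩
    obtain ⟨G, g1, g2, g3, g4⟩ := hCK n
    exact ⟨G, ⟨g1, g2, g3⟩, g4⟩

theorem exists_out {r m : ℕ} (hr : 3 ≤ r) {F : Finset (Finset (Fin m))}
    (hF : ∀ f ∈ F, f.card = r) {I : Set (Fin m)} (hI : (shadow F).IsIndepSet I) (v : Fin m)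
    {f : Finset (Fin m)} (hf : f ∈ F) : ∃ x ∈ f, x ∉ I ∧ x ≠ v := by
  have : 1 < (f.erase v).card := by
    have := Finset.pred_card_le_card_erase (s := f) (a := v)
    rw [hF f hf] at this
    omega
  obtain ⟨x, hx, y, hy, hxy⟩ := Finset.one_lt_card.mp this
  rw [Finset.mem_erase] at hx hy
  by_cases h : x ∈ I
  · refine ⟨y, hy.2, fun h' => hI h h' hxy ?_, hy.1⟩
    exact (SimpleGraph.fromRel_adj _ _ _).mpr ⟨hxy, Or.inl ⟨f, hf, hx.2, hy.2⟩⟩
  · exact ⟨x, hx.2, h, hx.1⟩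

theorem not_folds {r m : ℕ} (hr : 3 ≤ r) {F : Finset (Finset (Fin m))}
    (hF : ∀ f ∈ F, f.card = r) (hR : Robust F)
    (h : (∀ f ∈ F, Loose F f) ∨ (shadow F).indepNum < r) {e : Finset (Fin m)} (he : e ∈ F)
    (hl : Loose F e) {I : Set (Fin m)} (hI : (shadow F).IsIndepSet I) : ¬ Folds F I e := by
  classical
  rintro ⟨ψ, h1, h2, -⟩
  have hall : ∀ f ∈ F, f.image ψ ∈ F.erase e := fun f hf => h1 f hf (fun v => by
    obtain ⟨x, hx, hx'⟩ := exists_out hr hF hI v he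
    obtain ⟨y, hy, hy'⟩ := exists_out hr hF hI v hf
    exact ⟨⟨x, hx'⟩, ⟨y, hy'⟩, hx, hy, hR I hI v _ _⟩)
  rcases h with h | h
  · have := Finset.card_le_card_of_injOn (fun f => f.image ψ) (fun f hf => hall f hf) (by
      intro f hf g hg hfg
      by_contra hne
      obtain ⟨a1, a2⟩ := Finset.mem_erase.mp (hall f hf)
      have a3 := Finset.card_sdiff_add_card_inter (f.image ψ) e
      have a4 := hl _ a2 a1
      rw [Finset.inter_comm] at a4
      rw [hF _ a2] at a3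
      obtain ⟨u, hu, u', hu', huu⟩ := Finset.one_lt_card.mp (show 1 < (f.image ψ \ e).card by omega)
      have key : ∀ w ∈ f.image ψ \ e, ∃ x ∈ g ∩ f, ψ x = w := by
        intro w hw
        obtain ⟨b1, b2⟩ := Finset.mem_sdiff.mp hw
        obtain ⟨x, hx, rfl⟩ := Finset.mem_image.mp b1
        obtain ⟨y, hy, hyx⟩ := Finset.mem_image.mp (show ψ x ∈ g.image ψ from
          (show f.image ψ = g.image ψ from hfg) ▸ b1)
        exact ⟨x, Finset.mem_inter.mpr ⟨h2 x y hyx.symm b2 ▸ hy, hx⟩, rfl⟩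
      obtain ⟨x, hx, rfl⟩ := key u hu
      obtain ⟨y, hy, rfl⟩ := key u' hu'
      exact huu (congrArg ψ (Finset.card_le_one.mp (h g hg f hf hne) x hx y hy)))
    rw [Finset.card_erase_of_mem he] at this
    have := Finset.card_pos.mpr ⟨e, he⟩
    omega
  · have hJ : (shadow F).IsIndepSet (Finset.univ.filter (fun x => ψ x ∈ e) : Finset (Fin m)) := by
      have key : ∀ f ∈ F, ∀ x ∈ f, ∀ y ∈ f, ψ x ∈ e → ψ y ∈ e → x = y := by
        intro f hf x hx y hy hxe hye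
        obtain ⟨a1, a2⟩ := Finset.mem_erase.mp (hall f hf)
        have hi : Set.InjOn ψ f := by rw [← Finset.card_image_iff, hF _ a2, hF f hf]
        exact hi hx hy (Finset.card_le_one.mp (hl _ a2 a1) _
          (Finset.mem_inter.mpr ⟨hxe, Finset.mem_image_of_mem _ hx⟩) _
          (Finset.mem_inter.mpr ⟨hye, Finset.mem_image_of_mem _ hy⟩))
      intro x hx y hy hxy hadj
      have hx' := (Finset.mem_filter.mp hx).2
      have hy' := (Finset.mem_filter.mp hy).2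
      rcases ((SimpleGraph.fromRel_adj _ _ _).mp hadj).2 with ⟨f, hf, a, b⟩ | ⟨f, hf, a, b⟩
      · exact hxy (key f hf x a y b hx' hy')
      · exact hxy (key f hf x b y a hx' hy')
    have h3 := hJ.card_le_indepNum
    have h4 := Finset.card_le_card_of_injOn (s := Finset.univ.filter (fun x => ¬ ψ x ∈ e))
      (t := eᶜ) ψ (fun x hx => Finset.mem_coe.mpr (Finset.mem_compl.mpr
        (Finset.mem_filter.mp hx).2))
      (fun x hx y _ hxy => h2 x y hxy (Finset.mem_filter.mp hx).2)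
    have h5 := Finset.card_filter_add_card_filter_not (s := Finset.univ) (fun x => ψ x ∈ e)
    have h6 := Finset.card_add_card_compl e
    rw [Finset.card_univ] at h5
    rw [hF e he] at h6
    omega

theorem result (r m : ℕ) (hr : 3 ≤ r) (F : Finset (Finset (Fin m))) (hF : ∀ f ∈ F, f.card = r)
    (hclass :
      (∃ e ∈ F, Loose F e ∧ ∀ I : Set (Fin m), (shadow F).IsIndepSet I → ¬ Folds F I e) ∨
      (∀ e ∈ F, Loose F e → NoPrivate F e ∧
        ∀ I : Set (Fin m), (shadow F).IsIndepSet I → ∀ f ∈ F, Tied F I e f) ∨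
      (Robust F ∧ ((∀ e ∈ F, Loose F e) ∨ (shadow F).indepNum < r ∨
        ∀ e ∈ F, Loose F e → NoPrivate F e))) :
    (∃ C n₀ : ℕ, ∀ n : ℕ, n₀ ≤ n → ∀ G : Finset (Finset (Fin n)), Saturated r F G →
      n ^ (m + 1) ≤ C * G.card ^ m) ∨
    (∃ C K : ℕ, ∀ n : ℕ, ∃ G : Finset (Finset (Fin n)), Saturated r F G ∧
      G.card ≤ C * (Nat.log 2 n + 1) ^ K * n ^ (r - 2)) := by
  rcases Nat.eq_zero_or_pos m with rfl | hm
  · refine Or.inl ⟨0, 0, fun n _ G hG =>
      (hG.2.1 ⟨Function.Embedding.ofIsEmpty, fun f hf => ?_⟩).elim⟩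
    have := Finset.card_le_univ f
    rw [hF f hf, Fintype.card_fin] at this
    omega
  by_cases hc : (∀ e ∈ F, ¬ Loose F e) ∨ ∃ e ∈ F, Loose F e ∧ ∀ I : Set (Fin m),
      (shadow F).IsIndepSet I → ¬ Folds F I e
  · rcases main r m hr F hF hc with h1 | h1
    · refine Or.inl ⟨(4 * r ^ 4) ^ m, 2 * r, fun n hn G hG => ?_⟩
      calc n ^ (m + 1) ≤ n ^ (2 * m) := Nat.pow_le_pow_right (by omega) (by omega)
        _ = (n ^ 2) ^ m := pow_mul _ _ _
        _ ≤ (4 * r ^ 4 * G.card) ^ m := Nat.pow_le_pow_left (h1 n hn G hG) _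
        _ = _ := mul_pow _ _ _
    · exact Or.inr h1
  obtain ⟨hc0, hc⟩ := not_or.mp hc
  have h : ∀ e ∈ F, Loose F e → NoPrivate F e ∧
      ∀ I : Set (Fin m), (shadow F).IsIndepSet I → ∀ f ∈ F, Tied F I e f := by
    obtain ⟨e0, he0⟩ := not_forall.mp hc0
    obtain ⟨he0, hl0⟩ := Classical.not_imp.mp he0
    rcases hclass with h | h | ⟨hR, h | h | h⟩
    · exact absurd h hc
    · exact h
    · exact absurd ⟨e0, he0, not_not.mp hl0, fun I hI =>
        not_folds hr hF hR (Or.inl h) he0 (not_not.mp hl0) hI⟩ hc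
    · exact absurd ⟨e0, he0, not_not.mp hl0, fun I hI =>
        not_folds hr hF hR (Or.inr h) he0 (not_not.mp hl0) hI⟩ hc
    · refine fun e he hl => ⟨h e he hl, fun I hI f hf v => ?_⟩
      obtain ⟨x, hx, hx'⟩ := exists_out hr hF hI v he
      obtain ⟨y, hy, hy'⟩ := exists_out hr hF hI v hf
      exact ⟨⟨x, hx'⟩, ⟨y, hy'⟩, hx, hy, hR I hI v _ _⟩
  obtain ⟨C, n₀, hC⟩ := Pool.Agent.MP_038f7f_co.H79.lower_gen (by omega) hm hF (fun e he hl => by
    obtain ⟨p, q⟩ := h e he hl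
    refine ⟨?_, fun a ha u hu hf => ?_⟩
    · by_contra hn
      refine hc ⟨e, he, hl, fun I hI => ?_⟩
      rintro ⟨ψ, a, b, -⟩
      exact hn ⟨ψ, fun f hf => a f hf (q I hI f hf), b⟩
    · obtain ⟨b, hb, hba, hadj⟩ := p a ha u hu ((SimpleGraph.fromRel_adj _ _ _).mpr
        ⟨fun h => hu (h ▸ ha), Or.inl hf⟩)
      refine ⟨b, hb, hba, ?_⟩
      rcases ((SimpleGraph.fromRel_adj _ _ _).mp hadj).2 with ⟨f, hf, x, y⟩ | ⟨f, hf, x, y⟩
      · exact ⟨f, hf, x, y⟩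
      · exact ⟨f, hf, y, x⟩)
  exact Or.inl ⟨C, n₀, fun n hn G hG => hC n hn G hG.1 hG.2.1 hG.2.2⟩

end Pool.Agent.Results.MP_038f7f_co.FoldDichotomy
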