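import Mathlib
import Pool.Agent.MP_038f7f_co.h79.Up
import Pool.Agent.MP_038f7f_co.h79.Low

set_option autoImplicit false

namespace Pool.Agent.Results.MP_038f7f_co.FourThirds

/-- a 3-graph with 9 vertices and 18 edges -/
def F : Finset (Finset (Fin 9)) :=
  {{0, 1, 2}, {0, 3, 6}, {0, 3, 7}, {0, 4, 5}, {0, 4, 8}, {0, 5, 6}, {0, 5, 8}, {0, 6, 8},
    {0, 7, 8}, {1, 4, 6}, {1, 4, 7}, {1, 5, 7}, {2, 3, 8}, {3, 5, 6}, {3, 5, 7}, {3, 5, 8},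
    {4, 6, 8}, {5, 6, 8}}

/-- `G` contains a copy of `F` -/
def Contains {n : ℕ} (G : Finset (Finset (Fin n))) : Prop :=
  ∃ φ : Fin 9 ↪ Fin n, ∀ f ∈ F, f.map φ ∈ G

/-- `G` is an `F`-saturated 3-graph -/
def Saturated {n : ℕ} (G : Finset (Finset (Fin n))) : Prop :=
  (∀ s ∈ G, s.card = 3) ∧ ¬Contains G ∧
    ∀ s : Finset (Fin n), s.card = 3 → s ∉ G → Contains (insert s G)

/-- The saturation number of `F` has order `n ^ (4 / 3)`, although the edge `{0, 1, 2}` meets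
every other edge of `F` in at most one vertex. -/
theorem result :
    (∀ f ∈ F, f.card = 3) ∧
    (∀ f ∈ F, f ≠ {0, 1, 2} → (({0, 1, 2} : Finset (Fin 9)) ∩ f).card ≤ 1) ∧
    ∀ n : ℕ, 48 ≤ n →
      (∀ G : Finset (Finset (Fin n)), Saturated G → n ^ 4 ≤ 10 ^ 9 * G.card ^ 3) ∧
      ∃ G : Finset (Finset (Fin n)), Saturated G ∧ G.card ^ 3 ≤ 10 ^ 9 * n ^ 4 := by
  refine ⟨Pool.Agent.MP_038f7f_co.H79.card_F9, Pool.Agent.MP_038f7f_co.H79.loose_F9,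
    fun n hn => ⟨fun G hG => Pool.Agent.MP_038f7f_co.H79.lower n hn G hG.1 hG.2.1 hG.2.2, ?_⟩⟩
  obtain ⟨G, g1, g2, g3, g4⟩ := Pool.Agent.MP_038f7f_co.H79.upper n hn
  exact ⟨G, ⟨g1, g2, g3⟩, g4⟩

end Pool.Agent.Results.MP_038f7f_co.FourThirds
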