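import Mathlib
import Pool.Agent.MP_038f7f_co.h77.Main
import Pool.Agent.MP_038f7f_co.h95.Main

set_option autoImplicit false

namespace Pool.Agent.Results.MP_038f7f_co.TuzaFailsAll

/-- `G` contains a copy of `F` -/
def Contains {m n : ℕ} (F : Finset (Finset (Fin m))) (G : Finset (Finset (Fin n))) : Prop :=
  ∃ f : Fin m ↪ Fin n, ∀ e ∈ F, e.map f ∈ G

/-- `G` is an `F`-saturated `r`-graph -/
def Saturated (r : ℕ) {m n : ℕ} (F : Finset (Finset (Fin m))) (G : Finset (Finset (Fin n))) :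
    Prop :=
  (∀ e ∈ G, e.card = r) ∧ ¬Contains F G ∧
    ∀ s : Finset (Fin n), s.card = r → s ∉ G → Contains F (insert s G)

/-- the saturation number: the least number of edges of an `F`-saturated `r`-graph on `n`
vertices -/
noncomputable def Sat (r : ℕ) {m : ℕ} (F : Finset (Finset (Fin m))) (n : ℕ) : ℕ :=
  sInf {k : ℕ | ∃ G : Finset (Finset (Fin n)), Saturated r F G ∧ G.card = k}

open Pool.Agent.MP_038f7f_co in
/-- For every `r ≥ 3` a single `r`-graph `F` whose saturation number is at most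
`(k - 1) / (2 (r - 2)!) * n ^ (r - 1)` when `k ∣ n` and larger by a fixed multiple of
`n ^ (r - 1)` otherwise, so that `Sat(F, n) / n ^ (r - 1)` does not converge. -/
theorem result (r : ℕ) (hr : 3 ≤ r) :
    ∃ (m : ℕ) (F : Finset (Finset (Fin m))), F.Nonempty ∧ (∀ e ∈ F, e.card = r) ∧
      ∃ (k : ℕ) (c : ℝ) (n₀ : ℕ), 2 ≤ k ∧ 0 < c ∧ ∀ n : ℕ, n₀ ≤ n →
        (k ∣ n → (Sat r F n : ℝ) ≤ ((k : ℝ) - 1) / (2 * (r - 2).factorial) * (n : ℝ) ^ (r - 1)) ∧
        (¬k ∣ n → (((k : ℝ) - 1) / (2 * (r - 2).factorial) + c) * (n : ℝ) ^ (r - 1) ≤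
          (Sat r F n : ℝ)) := by
  have ex : ∀ {m : ℕ} (F : Finset (Finset (Fin m))), F.Nonempty → ∀ n,
      ∃ G : Finset (Finset (Fin n)), Saturated r F G ∧ G.card = Sat r F n := by
    intro m F hF n
    obtain ⟨G, hG⟩ := H95.exists_sat r F hF n
    exact Nat.sInf_mem (s := {k : ℕ | ∃ G : Finset (Finset (Fin n)), Saturated r F G ∧ G.card = k})
      ⟨G.card, G, hG, rfl⟩
  rcases hr.eq_or_lt with rfl | hr
  · refine ⟨_, H77.FF, H77.FF_nonempty, H77.FF_card, 40, 1 / (6 * 10 ^ 12), 10 ^ 50, by norm_num,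
      by norm_num, fun n hn => ⟨fun hd => ?_, fun hd => ?_⟩⟩
    · have h1 : Sat 3 H77.FF n ≤ (H77.G0 n).card := Nat.sInf_le ⟨H77.G0 n,
        ⟨H77.G0_card3, H77.G0_free n, H77.G0_sat n (le_trans (by norm_num) hn) hd⟩, rfl⟩
      have h2 : 2 * Sat 3 H77.FF n ≤ 39 * n ^ 2 := le_trans (by omega) (H77.G0_card n)
      have h3 : (2 : ℝ) * Sat 3 H77.FF n ≤ 39 * (n : ℝ) ^ 2 := by exact_mod_cast h2
      norm_num
      linarith
    · obtain ⟨G, hG, hk⟩ := ex H77.FF H77.FF_nonempty n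
      have h2 := H77.lower_G n hn hd G hG.1 hG.2.1 hG.2.2
      rw [hk] at h2
      have h3 : ((117 : ℝ) * 10 ^ 12 + 1) * (n : ℝ) ^ 2 ≤ 10 ^ 12 * (6 * (Sat 3 H77.FF n : ℝ)) := by
        exact_mod_cast h2
      norm_num at h3 ⊢
      linarith
  · obtain ⟨m, F, h1, h2, c, hc, n₀, h⟩ := H95.main4 (r := r) hr
    have e : ((r + 4 : ℕ) : ℝ) - 1 = r + 3 := by push_cast; ring
    refine ⟨m, F, h1, h2, r + 4, c, n₀, by omega, hc, fun n hn => ⟨fun hd => ?_, fun hd => ?_⟩⟩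
    · obtain ⟨G, hG, hk⟩ := (h n hn).1 hd
      have h3 : Sat r F n ≤ G.card := Nat.sInf_le ⟨G, hG, rfl⟩
      rw [e]
      exact le_trans (by exact_mod_cast h3) hk
    · obtain ⟨G, hG, hk⟩ := ex F h1 n
      rw [e, ← hk]
      exact (h n hn).2 hd G hG

end Pool.Agent.Results.MP_038f7f_co.TuzaFailsAll
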