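import Mathlib
import Pool.Agent.MP_038f7f_co.h11.Low

set_option autoImplicit false

namespace Pool.Agent.Results.MP_038f7f_co.TwoMembers

/-- `G` contains a copy of `F` -/
def Contains {m n : ℕ} (F : Finset (Finset (Fin m))) (G : Finset (Finset (Fin n))) : Prop :=
  ∃ f : Fin m ↪ Fin n, ∀ e ∈ F, e.map f ∈ G

/-- `G` is an `r`-graph that is saturated for the family with the two members `F₁`, `F₂` -/
def Saturated (r : ℕ) {m₁ m₂ n : ℕ} (F₁ : Finset (Finset (Fin m₁))) (F₂ : Finset (Finset (Fin m₂)))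
    (G : Finset (Finset (Fin n))) : Prop :=
  (∀ e ∈ G, e.card = r) ∧ ¬Contains F₁ G ∧ ¬Contains F₂ G ∧
    ∀ s : Finset (Fin n), s.card = r → s ∉ G → Contains F₁ (insert s G) ∨ Contains F₂ (insert s G)

/-- For every `r ≥ 3` there are two `r`-graphs whose saturation number is `O(n ^ (r - 2))` when
`8 ∣ n` and `Ω(n ^ (r - 1))` otherwise. -/
theorem result (r : ℕ) (hr : 3 ≤ r) :
    ∃ (m₁ m₂ n₀ : ℕ) (F₁ : Finset (Finset (Fin m₁))) (F₂ : Finset (Finset (Fin m₂))),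
      (∀ e ∈ F₁, e.card = r) ∧ (∀ e ∈ F₂, e.card = r) ∧
      (∀ n : ℕ, n₀ ≤ n → 8 ∣ n → ∃ G : Finset (Finset (Fin n)), Saturated r F₁ F₂ G ∧
        G.card ≤ 7 * n ^ (r - 2)) ∧
      ∀ n : ℕ, ¬8 ∣ n → ∀ G : Finset (Finset (Fin n)), Saturated r F₁ F₂ G →
        n.choose r ≤ r * n * G.card :=
  Pool.Agent.MP_038f7f_co.H11.main r hr

end Pool.Agent.Results.MP_038f7f_co.TwoMembers
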